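import Pool.Agent.U136.DX.Stm2

/-!
# Polynomials on lattice lines and their growth
-/

set_option autoImplicit false

namespace Pool.Agent.U212.DX

open Pool.Agent.N983.RT Pool.Agent.U136.DX

theorem nsq_nonneg (k : Wv) : 0 ≤ nsq k := by
  unfold nsq
  exact Finset.sum_nonneg fun i _ => sq_nonneg _

theorem coord_le (k : Wv) (n : Fin 3) : |(k n : ℝ)| ≤ 1 + nsq k := by
  have h1 : (k n : ℝ) ^ 2 ≤ nsq k := by
    unfold nsq
    exact Finset.single_le_sum (f := fun i => (k i : ℝ) ^ 2) (fun i _ => sq_nonneg _)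
      (Finset.mem_univ n)
  rw [abs_le]
  constructor <;> nlinarith [sq_nonneg ((k n : ℝ) - 1), sq_nonneg ((k n : ℝ) + 1)]

theorem lines (P : MvPolynomial (Fin 3) ℝ) : ∃ D : ℕ, PolyD D (ev P) := by
  induction P using MvPolynomial.induction_on with
  | C a =>
    refine ⟨0, fun k i => ⟨Polynomial.C a, by simp, fun t => ?_⟩⟩
    simp [ev]
  | add p q hp hq =>
    obtain ⟨D, hD⟩ := hp
    obtain ⟨E, hE⟩ := hq
    refine ⟨max D E, fun k i => ?_⟩
    obtain ⟨u, hu, hu'⟩ := hD k i
    obtain ⟨v, hv, hv'⟩ := hE k i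
    refine ⟨u + v, (Polynomial.natDegree_add_le _ _).trans (max_le_max hu hv), fun t => ?_⟩
    have h1 := hu' t
    have h2 := hv' t
    unfold ev at h1 h2 ⊢
    rw [map_add, Polynomial.eval_add, h1, h2]
  | mul_X p n hp =>
    obtain ⟨D, hD⟩ := hp
    refine ⟨D + 1, fun k i => ?_⟩
    obtain ⟨u, hu, hu'⟩ := hD k i
    by_cases h : n = i
    · refine ⟨u * Polynomial.X, ?_, fun t => ?_⟩
      · refine Polynomial.natDegree_mul_le.trans ?_
        have := Polynomial.natDegree_X_le (R := ℝ)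
        omega
      · have h1 := hu' t
        unfold ev at h1 ⊢
        rw [map_mul, Polynomial.eval_mul, h1, MvPolynomial.eval_X, Polynomial.eval_X, h,
          Function.update_self]
    · refine ⟨u * Polynomial.C (k n : ℝ), ?_, fun t => ?_⟩
      · refine Polynomial.natDegree_mul_le.trans ?_
        rw [Polynomial.natDegree_C]
        omega
      · have h1 := hu' t
        unfold ev at h1 ⊢
        rw [map_mul, Polynomial.eval_mul, h1, MvPolynomial.eval_X, Polynomial.eval_C,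
          Function.update_of_ne h]

theorem growth (P : MvPolynomial (Fin 3) ℝ) :
    ∃ (q : ℕ) (C : ℝ), 0 ≤ C ∧ ∀ k, |ev P k| ≤ C * (1 + nsq k) ^ q := by
  induction P using MvPolynomial.induction_on with
  | C a => exact ⟨0, |a|, abs_nonneg _, fun k => by simp [ev]⟩
  | add p q hp hq =>
    obtain ⟨r, C, hC, h⟩ := hp
    obtain ⟨s, E, hE, g⟩ := hq
    refine ⟨r + s, C + E, add_nonneg hC hE, fun k => ?_⟩
    have h1 : 1 ≤ 1 + nsq k := by linarith [nsq_nonneg k]
    have h2 : (1 + nsq k) ^ r ≤ (1 + nsq k) ^ (r + s) := pow_le_pow_right₀ h1 (by omega)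
    have h3 : (1 + nsq k) ^ s ≤ (1 + nsq k) ^ (r + s) := pow_le_pow_right₀ h1 (by omega)
    have h4 : ev (p + q) k = ev p k + ev q k := by unfold ev; rw [map_add]
    rw [h4]
    calc |ev p k + ev q k| ≤ |ev p k| + |ev q k| := abs_add_le _ _
      _ ≤ C * (1 + nsq k) ^ r + E * (1 + nsq k) ^ s := add_le_add (h k) (g k)
      _ ≤ C * (1 + nsq k) ^ (r + s) + E * (1 + nsq k) ^ (r + s) :=
        add_le_add (mul_le_mul_of_nonneg_left h2 hC) (mul_le_mul_of_nonneg_left h3 hE)
      _ = (C + E) * (1 + nsq k) ^ (r + s) := by ring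
  | mul_X p n hp =>
    obtain ⟨r, C, hC, h⟩ := hp
    refine ⟨r + 1, C, hC, fun k => ?_⟩
    have h1 : 0 ≤ 1 + nsq k := by linarith [nsq_nonneg k]
    have h4 : ev (p * MvPolynomial.X n) k = ev p k * k n := by
      unfold ev
      rw [map_mul, MvPolynomial.eval_X]
    rw [h4, abs_mul, pow_succ, ← mul_assoc]
    exact mul_le_mul (h k) (coord_le k n) (abs_nonneg _) (mul_nonneg hC (pow_nonneg h1 _))

/-- **(POL)** -/
theorem t_POL : S_POL := by
  intro P
  obtain ⟨q, C, -, h⟩ := growth P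
  exact ⟨lines P, q, C, h⟩

end Pool.Agent.U212.DX
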